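import Pool.Agent.helper82.RL.Main

/-!
# PB-Cnt: the number of record words below a size

The words with `1 / 3 ≤ 2 ^ sum / 3 ^ length < 2 X` are in one of the strips `X / 2 ^ t`; each has the weight `ww v > 2 ^ t / (2 X)`.
-/

namespace Pool.Agent.helper4.PB

open Finset Pool.Agent.helper14.EX1 Pool.Agent.helper49.PDR Pool.Agent.helper82.RL

theorem exists_strip {X : ℝ} (hX : 0 < X) {N : ℕ} (hN : X / 2 ^ N ≤ 1 / 3) {l A : ℕ}
    (h1 : (3 : ℝ) ^ l ≤ 3 * 2 ^ A) (h2 : (2 : ℝ) ^ A < 2 * X * 3 ^ l) :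
    ∃ t ∈ range (N + 1), strip (X / 2 ^ t) l A := by
  classical
  have h3 : (0 : ℝ) < 3 ^ l := by positivity
  have hex : ∃ t, X / 2 ^ t * 3 ^ l ≤ (2 : ℝ) ^ A := by
    refine ⟨N, ?_⟩
    have := mul_le_mul_of_nonneg_right hN h3.le
    linarith
  obtain ⟨t, ht⟩ : ∃ t, t = Nat.find hex := ⟨_, rfl⟩
  have hspec := Nat.find_spec hex
  rw [← ht] at hspec
  refine ⟨t, ?_, hspec, ?_⟩
  · rw [mem_range, ht]
    have : Nat.find hex ≤ N := by
      apply Nat.find_min'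
      have := mul_le_mul_of_nonneg_right hN h3.le
      linarith
    omega
  · rcases Nat.eq_zero_or_pos t with h0 | h0
    · rw [h0, pow_zero, div_one]
      exact h2
    · have h4 := Nat.find_min hex (m := t - 1) (by omega)
      push Not at h4
      have h5 : (2 : ℝ) ^ t = 2 * 2 ^ (t - 1) := by
        rw [← pow_succ']
        congr 1
        omega
      have h6 : 2 * (X / 2 ^ t) = X / 2 ^ (t - 1) := by
        rw [h5]
        field_simp
      rw [h6]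
      exact h4

theorem ww_strip {X : ℝ} (hX : 0 < X) {v : List ℕ} (h : strip X v.length v.sum) : 1 ≤ 2 * X * ww v := by
  unfold ww
  have h1 := h.2
  rw [mul_div_assoc', le_div_iff₀ (by positivity)]
  linarith

theorem two_sum (N : ℕ) : ∑ t ∈ range N, (1 : ℝ) / 2 ^ t ≤ 2 := by
  have h : ∑ t ∈ range N, (1 : ℝ) / 2 ^ t = 2 * (1 - (1 / 2) ^ N) := by
    induction N with
    | zero => simp
    | succ N ih =>
      rw [sum_range_succ, ih, pow_succ (1 / 2 : ℝ) N, ← one_div_pow]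
      ring
  rw [h]
  have : (0 : ℝ) ≤ (1 / 2) ^ N := by positivity
  linarith

open Classical in
theorem cnt {C : ℝ} (hC : 0 ≤ C) (H : ∀ (i0 K r : ℕ) (M X : ℝ) (x : ℤ), 1 ≤ M → 0 < X →
    ∑ l ∈ range (r + 1), ∑ v ∈ lw K l,
      (if Gdw i0 v ∧ Nlo M v ∧ Ala x v ∧ strip X l v.sum then ww v else 0) ≤
      C * M * (i0 + 1) ^ 2) (i0 K r : ℕ) (x : ℤ) {X : ℝ} (hX : 0 < X) :
    ∑ l ∈ range (r + 1), (((lw K l).filter (fun v => Gdw i0 v ∧ Nlo 3 v ∧ Ala x v ∧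
      (2 : ℝ) ^ v.sum < 2 * X * 3 ^ v.length)).card : ℝ) ≤ 12 * C * (i0 + 1) ^ 2 * X := by
  obtain ⟨N, hN⟩ : ∃ N : ℕ, X / 2 ^ N ≤ 1 / 3 := by
    obtain ⟨N, hN⟩ := exists_nat_ge (3 * X)
    refine ⟨N, ?_⟩
    rw [div_le_iff₀ (by positivity)]
    have : (N : ℝ) < 2 ^ N := by exact_mod_cast Nat.lt_two_pow_self
    linarith
  have hpos : (0 : ℝ) ≤ C * 3 * (i0 + 1) ^ 2 := by positivity
  have h1 : ∀ l ∈ range (r + 1), (((lw K l).filter (fun v => Gdw i0 v ∧ Nlo 3 v ∧ Ala x v ∧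
      (2 : ℝ) ^ v.sum < 2 * X * 3 ^ v.length)).card : ℝ) ≤
      ∑ t ∈ range (N + 1), 2 * (X / 2 ^ t) * ∑ v ∈ lw K l,
        (if Gdw i0 v ∧ Nlo 3 v ∧ Ala x v ∧ strip (X / 2 ^ t) l v.sum then ww v else 0) := by
    intro l _
    rw [card_filter]
    push_cast
    simp only [mul_sum]
    rw [sum_comm]
    refine sum_le_sum fun v hv => ?_
    have hl : v.length = l := (mem_lw.1 hv).1
    have hnn : ∀ t ∈ range (N + 1), (0 : ℝ) ≤ 2 * (X / 2 ^ t) *
        (if Gdw i0 v ∧ Nlo 3 v ∧ Ala x v ∧ strip (X / 2 ^ t) l v.sum then ww v else 0) := by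
      intro t _
      have := (ww_pos v).le
      split_ifs <;> positivity
    by_cases h : Gdw i0 v ∧ Nlo 3 v ∧ Ala x v ∧ (2 : ℝ) ^ v.sum < 2 * X * 3 ^ v.length
    · rw [if_pos h]
      have h3 := h.2.1 v.length le_rfl
      rw [List.take_length] at h3
      obtain ⟨t, ht1, ht2⟩ := exists_strip hX hN h3 h.2.2.2
      rw [hl] at ht2
      refine le_trans ?_ (single_le_sum hnn ht1)
      rw [if_pos ⟨h.1, h.2.1, h.2.2.1, ht2⟩]
      rw [← hl] at ht2
      exact ww_strip (by positivity) ht2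
    · rw [if_neg h]
      exact sum_nonneg hnn
  refine (sum_le_sum h1).trans ?_
  rw [sum_comm]
  have h2 : ∀ t ∈ range (N + 1), ∑ l ∈ range (r + 1), 2 * (X / 2 ^ t) * ∑ v ∈ lw K l,
        (if Gdw i0 v ∧ Nlo 3 v ∧ Ala x v ∧ strip (X / 2 ^ t) l v.sum then ww v else 0) ≤
      2 * X * (C * 3 * (i0 + 1) ^ 2) * (1 / 2 ^ t) := by
    intro t _
    rw [← mul_sum]
    have h3 := H i0 K r 3 (X / 2 ^ t) x (by norm_num) (by positivity)
    have h4 := mul_le_mul_of_nonneg_left h3 (show (0 : ℝ) ≤ 2 * (X / 2 ^ t) by positivity)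
    refine h4.trans (le_of_eq ?_)
    ring
  refine (sum_le_sum h2).trans ?_
  rw [← mul_sum]
  have h5 := two_sum (N + 1)
  have h6 := mul_le_mul_of_nonneg_left h5 (show (0 : ℝ) ≤ 2 * X * (C * 3 * (i0 + 1) ^ 2) by positivity)
  refine h6.trans (le_of_eq ?_)
  ring

end Pool.Agent.helper4.PB
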