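import Pool.Agent.helper4.PB.Dat
import Pool.Agent.helper4.PB.Cnt

/-!
# PB-Fin: the pointwise bound
-/

namespace Pool.Agent.helper4.PB

open Finset Pool.Agent.helper14.EX1 Pool.Agent.helper4.BAS Pool.Agent.helper82.RL

theorem dat_mono {s : ℤ} {I : ℕ} {Y : ℝ} {w : ℤ} {n K K' : ℕ} (h : K ≤ K') (hd : Dat s I Y w n K) :
    Dat s I Y w n K' := by
  obtain ⟨i, q, m, v, h1, h2, h3, h4, h5, h6, h7, h8, h9, h10, h11, h12⟩ := hd
  exact ⟨i, q, m, v, h1, h2, h3, h4, h5, h6, h7, h8, h9, h10, h11, h12.trans h⟩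

theorem unif_K {s : ℤ} {I : ℕ} {Y : ℝ} {w : ℤ} (S : Finset ℕ) (h : ∀ n ∈ S, ∃ K, Dat s I Y w n K) :
    ∃ K, ∀ n ∈ S, Dat s I Y w n K := by
  classical
  induction S using Finset.induction with
  | empty => exact ⟨0, by simp⟩
  | insert a S _ ih =>
    obtain ⟨K1, h1⟩ := ih (fun n hn => h n (mem_insert_of_mem hn))
    obtain ⟨K2, h2⟩ := h a (mem_insert_self a S)
    refine ⟨max K1 K2, fun n hn => ?_⟩
    rcases mem_insert.1 hn with rfl | hn
    · exact dat_mono (le_max_right _ _) h2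
    · exact dat_mono (le_max_left _ _) (h1 n hn)

/-- The integer with the data `i, q, v`. -/
def nn (x : ℤ) (i q : ℕ) (v : List ℕ) : ℕ := (2 ^ i * ((2 * (4 ^ q * (3 * nd x v + 2)) - 1) / 3)).natAbs

open Classical in
/-- The words. -/
noncomputable def WW (I K : ℕ) (x : ℤ) (X : ℝ) : Finset (List ℕ) :=
  (range (K + 1)).biUnion (fun l => (lw K l).filter (fun v => Gdw I v ∧ Nlo 3 v ∧ Ala x v ∧
    (2 : ℝ) ^ v.sum < 2 * X * 3 ^ v.length))

theorem mem_letter_le {v : List ℕ} {k : ℕ} (h : k ∈ v) : k ≤ v.sum := List.le_sum_of_mem h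

open Classical in
theorem dat_sub {s : ℤ} (hs : s = 1 ∨ s = -1) {I : ℕ} {Y : ℝ} (hY : 0 < Y) {w : ℤ} {X K : ℕ}
    (S : Finset ℕ) (hS : ∀ n ∈ S, n ≤ X ∧ Dat s I Y w n K) :
    S ⊆ (range (2 * X + 1)).biUnion (fun i => (range (2 * X + 1)).biUnion (fun q =>
      (WW I K (rt w) (8 * (X + 1) / (2 ^ i * 4 ^ q * Y))).image (nn (rt w) i q))) := by
  intro n hn
  obtain ⟨hnX, i, q, m, v, h1, h2, h3, h4, h5, h6, h7, h8, h9, h10, h11, h12⟩ := hS n hn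
  rw [mem_biUnion]
  refine ⟨i, mem_range.2 (by omega), ?_⟩
  rw [mem_biUnion]
  have hq : q < 2 * X + 1 := by
    have e1 : (q : ℤ) < 4 ^ q := by
      have : q < 4 ^ q := Nat.lt_pow_self (by norm_num)
      exact_mod_cast this
    have e2 : (1 : ℤ) ≤ 2 ^ i := one_le_pow₀ (by norm_num)
    have e3 : (4 : ℤ) ^ q ≤ 4 ^ q * 2 ^ i * nv s (nd (rt w) v) := by
      have e4 : (0 : ℤ) < 4 ^ q := by positivity
      nlinarith [mul_le_mul_of_nonneg_left e2 e4.le]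
    have e5 : (n : ℤ) ≤ X := by exact_mod_cast hnX
    omega
  refine ⟨q, mem_range.2 hq, ?_⟩
  rw [mem_image]
  refine ⟨v, ?_, ?_⟩
  · unfold WW
    rw [mem_biUnion]
    have hlen : v.length ≤ v.sum := List.length_le_sum_of_one_le v h3
    refine ⟨v.length, mem_range.2 (by omega), ?_⟩
    rw [mem_filter, mem_lw]
    refine ⟨⟨rfl, fun k hk => ⟨h3 k hk, (mem_letter_le hk).trans h12⟩⟩, h4, h5, h6, ?_⟩
    have hb : (4 : ℝ) ^ q * 2 ^ i * (nv s (nd (rt w) v) : ℝ) ≤ 2 * X := by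
      have e1 : ((4 ^ q * 2 ^ i * nv s (nd (rt w) v) : ℤ) : ℝ) ≤ ((2 * n : ℤ) : ℝ) := by
        exact_mod_cast h8
      push_cast at e1
      have e2 : (n : ℝ) ≤ X := by exact_mod_cast hnX
      linarith
    have hp3 : (0 : ℝ) < 3 ^ v.length := by positivity
    have hp : (0 : ℝ) < 2 ^ i * 4 ^ q := by positivity
    rw [show 2 * (8 * ((X : ℝ) + 1) / (2 ^ i * 4 ^ q * Y)) * 3 ^ v.length =
      (16 * (X + 1) * 3 ^ v.length) / (2 ^ i * 4 ^ q * Y) by ring, lt_div_iff₀ (by positivity)]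
    have e1 : (2 : ℝ) ^ v.sum * (2 ^ i * 4 ^ q * Y) = (2 ^ i * 4 ^ q) * (Y * 2 ^ v.sum) := by ring
    have e2 : (2 ^ i * 4 ^ q : ℝ) * (Y * 2 ^ v.sum) ≤ (2 ^ i * 4 ^ q) *
        (4 * (nv s (nd (rt w) v) : ℝ) * 3 ^ v.length) := mul_le_mul_of_nonneg_left h7 hp.le
    have e3 : (2 ^ i * 4 ^ q : ℝ) * (4 * (nv s (nd (rt w) v) : ℝ) * 3 ^ v.length) =
        4 * 3 ^ v.length * (4 ^ q * 2 ^ i * (nv s (nd (rt w) v) : ℝ)) := by ring
    have e4 : 4 * 3 ^ v.length * (4 ^ q * 2 ^ i * (nv s (nd (rt w) v) : ℝ)) ≤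
        4 * 3 ^ v.length * (2 * X) := mul_le_mul_of_nonneg_left hb (by positivity)
    have e5 : 4 * (3 : ℝ) ^ v.length * (2 * X) < 16 * (X + 1) * 3 ^ v.length := by
      have : (0 : ℝ) ≤ X := Nat.cast_nonneg X
      nlinarith
    linarith
  · unfold nn
    have e1 : (2 * (4 ^ q * (3 * nd (rt w) v + 2)) - 1) / 3 = m := by
      rw [← h2]
      omega
    rw [e1, ← h1]
    rcases hs with rfl | rfl <;> simp

theorem four_sum (N : ℕ) : ∑ t ∈ range N, (1 : ℝ) / 4 ^ t ≤ 2 := by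
  refine le_trans ?_ (two_sum N)
  refine sum_le_sum fun t _ => ?_
  apply div_le_div_of_nonneg_left (by norm_num) (by positivity)
  exact pow_le_pow_left₀ (by norm_num) (by norm_num) t

open Classical in
theorem dat_card {C : ℝ} (hC : 0 ≤ C) (H : ∀ (i0 K r : ℕ) (M X : ℝ) (x : ℤ), 1 ≤ M → 0 < X →
    ∑ l ∈ range (r + 1), ∑ v ∈ lw K l,
      (if Gdw i0 v ∧ Nlo M v ∧ Ala x v ∧ Pool.Agent.helper49.PDR.strip X l v.sum then ww v else 0) ≤
      C * M * (i0 + 1) ^ 2) {s : ℤ} (hs : s = 1 ∨ s = -1) {I : ℕ} {Y : ℝ} (hY : 0 < Y) {w : ℤ} {X : ℕ}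
    (S : Finset ℕ) (hS : ∀ n ∈ S, n ≤ X ∧ ∃ K, Dat s I Y w n K) :
    (S.card : ℝ) ≤ 384 * C * (I + 1) ^ 2 * ((X + 1) / Y) := by
  obtain ⟨K, hK⟩ := unif_K S (fun n hn => (hS n hn).2)
  have hsub := dat_sub hs hY (X := X) (K := K) S (fun n hn => ⟨(hS n hn).1, hK n hn⟩)
  have h1 : (S.card : ℝ) ≤ ∑ i ∈ range (2 * X + 1), ∑ q ∈ range (2 * X + 1),
      ((WW I K (rt w) (8 * (X + 1) / (2 ^ i * 4 ^ q * Y))).card : ℝ) := by
    have e1 := card_le_card hsub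
    have e2 : S.card ≤ ∑ i ∈ range (2 * X + 1), ∑ q ∈ range (2 * X + 1),
        (WW I K (rt w) (8 * ((X : ℝ) + 1) / (2 ^ i * 4 ^ q * Y))).card := by
      refine e1.trans (card_biUnion_le.trans (sum_le_sum fun i _ => ?_))
      refine card_biUnion_le.trans (sum_le_sum fun q _ => ?_)
      exact card_image_le
    exact_mod_cast e2
  have h2 : ∀ i ∈ range (2 * X + 1), ∀ q ∈ range (2 * X + 1),
      ((WW I K (rt w) (8 * (X + 1) / (2 ^ i * 4 ^ q * Y))).card : ℝ) ≤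
        96 * C * (I + 1) ^ 2 * ((X + 1) / Y) * (1 / 2 ^ i) * (1 / 4 ^ q) := by
    intro i _ q _
    have hXp : (0 : ℝ) < 8 * (X + 1) / (2 ^ i * 4 ^ q * Y) := by positivity
    have e1 := cnt hC H I K K (rt w) hXp
    have e2 : ((WW I K (rt w) (8 * (X + 1) / (2 ^ i * 4 ^ q * Y))).card : ℝ) ≤
        ∑ l ∈ range (K + 1), (((lw K l).filter (fun v => Gdw I v ∧ Nlo 3 v ∧ Ala (rt w) v ∧
          (2 : ℝ) ^ v.sum < 2 * (8 * (X + 1) / (2 ^ i * 4 ^ q * Y)) * 3 ^ v.length)).card : ℝ) := by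
      unfold WW
      exact_mod_cast card_biUnion_le
    refine e2.trans (e1.trans (le_of_eq ?_))
    field_simp
    ring
  have h3 : ∑ i ∈ range (2 * X + 1), ∑ q ∈ range (2 * X + 1),
      ((WW I K (rt w) (8 * (X + 1) / (2 ^ i * 4 ^ q * Y))).card : ℝ) ≤
      ∑ i ∈ range (2 * X + 1), ∑ q ∈ range (2 * X + 1),
        96 * C * (I + 1) ^ 2 * ((X + 1) / Y) * (1 / 2 ^ i) * (1 / 4 ^ q) :=
    sum_le_sum fun i hi => sum_le_sum fun q hq => h2 i hi q hq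
  refine h1.trans (h3.trans ?_)
  have hP : (0 : ℝ) ≤ 96 * C * (I + 1) ^ 2 * ((X + 1) / Y) := by positivity
  calc ∑ i ∈ range (2 * X + 1), ∑ q ∈ range (2 * X + 1),
        96 * C * (I + 1) ^ 2 * ((X + 1) / Y) * (1 / 2 ^ i) * (1 / 4 ^ q)
      = 96 * C * (I + 1) ^ 2 * ((X + 1) / Y) * (∑ i ∈ range (2 * X + 1), (1 : ℝ) / 2 ^ i) *
        (∑ q ∈ range (2 * X + 1), (1 : ℝ) / 4 ^ q) := by
        simp only [← mul_sum, ← sum_mul]
    _ ≤ 96 * C * (I + 1) ^ 2 * ((X + 1) / Y) * 2 * 2 := by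
        have e1 := two_sum (2 * X + 1)
        have e2 := four_sum (2 * X + 1)
        have e3 : (0 : ℝ) ≤ ∑ q ∈ range (2 * X + 1), (1 : ℝ) / 4 ^ q := sum_nonneg fun _ _ => by positivity
        have e4 := mul_le_mul_of_nonneg_left e1 hP
        exact mul_le_mul e4 e2 e3 (by positivity)
    _ = 384 * C * (I + 1) ^ 2 * ((X + 1) / Y) := by ring

theorem pow_card {s : ℤ} (hs : s = 1 ∨ s = -1) {Y : ℝ} (hY : 1 ≤ Y) {w : ℤ} {X : ℕ} (hYX : Y ≤ X + 1)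
    (S : Finset ℕ) (hS : ∀ n ∈ S, n ≤ X ∧ ∃ j : ℕ, s * n = 2 ^ j * w ∧
      (1 ≤ j → Y ≤ 2 * ((s * w : ℤ) : ℝ))) : (S.card : ℝ) ≤ 3 * ((X + 1) / Y) := by
  classical
  have hY0 : 0 < Y := by linarith
  have hX0 : (0 : ℝ) ≤ X := Nat.cast_nonneg X
  have hsub : S ⊆ (range (⌊2 * (X : ℝ) / Y⌋₊ + 1)).image (fun j => (2 ^ j * w).natAbs) := by
    intro n hn
    obtain ⟨h1, j, h2, h3⟩ := hS n hn
    rw [mem_image]
    refine ⟨j, ?_, ?_⟩
    · rw [mem_range]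
      rcases Nat.eq_zero_or_pos j with h0 | h0
      · omega
      · have h4 := h3 h0
        have h5 : (n : ℤ) = 2 ^ j * (s * w) := by
          have : s * (s * n) = s * (2 ^ j * w) := by rw [h2]
          rcases hs with rfl | rfl <;> linarith
        have h6 : (n : ℝ) = 2 ^ j * ((s * w : ℤ) : ℝ) := by exact_mod_cast h5
        have h7 : (n : ℝ) ≤ X := by exact_mod_cast h1
        have h8 : (2 : ℝ) ^ j ≤ 2 * X / Y := by
          rw [le_div_iff₀ hY0]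
          have h9 : (0 : ℝ) < 2 ^ j := by positivity
          nlinarith
        have h9 : (j : ℝ) ≤ 2 * X / Y := by
          have : (j : ℝ) < 2 ^ j := by exact_mod_cast Nat.lt_two_pow_self
          linarith
        have := Nat.le_floor h9
        omega
    · show (2 ^ j * w).natAbs = n
      rw [← h2]
      rcases hs with rfl | rfl <;> simp
  have h1 : S.card ≤ ⌊2 * (X : ℝ) / Y⌋₊ + 1 := by
    refine (card_le_card hsub).trans (card_image_le.trans ?_)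
    rw [card_range]
  have h2 : (S.card : ℝ) ≤ (⌊2 * (X : ℝ) / Y⌋₊ : ℝ) + 1 := by exact_mod_cast h1
  have h3 : (⌊2 * (X : ℝ) / Y⌋₊ : ℝ) ≤ 2 * X / Y := Nat.floor_le (by positivity)
  have h4 : (1 : ℝ) ≤ (X + 1) / Y := by
    rw [le_div_iff₀ hY0]
    linarith
  have h5 : 2 * (X : ℝ) / Y ≤ 2 * ((X + 1) / Y) := by
    rw [mul_div_assoc]
    have : (X : ℝ) / Y ≤ (X + 1) / Y := div_le_div_of_nonneg_right (by linarith) hY0.le
    linarith
  linarith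

open Classical in
/-- **The pointwise bound.** -/
theorem pbZ : ∃ C : ℝ, 0 < C ∧ ∀ (s : ℤ), (s = 1 ∨ s = -1) → ∀ (X i0 : ℕ) (w : ℤ) (Y : ℝ), 1 ≤ i0 →
    1 ≤ Y → Y ≤ X + 1 → ((s * w : ℤ) : ℝ) ≤ Y →
    (((range (X + 1)).filter (fun n : ℕ => ∃ j, Hit s i0 Y w j (s * n))).card : ℝ) ≤
      C * i0 ^ 2 * ((X + 1) / Y) := by
  obtain ⟨C, hC, H⟩ := rl
  refine ⟨384 * C * 10404 + 827, by positivity, ?_⟩
  intro s hs X i0 w Y hi0 hY1 hYX hw
  have hY0 : 0 < Y := by linarith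
  have hi : (1 : ℝ) ≤ i0 := by exact_mod_cast hi0
  have hX0 : (0 : ℝ) ≤ X := Nat.cast_nonneg X
  have hXY : (0 : ℝ) < (X + 1) / Y := by positivity
  have hi2 : (1 : ℝ) ≤ (i0 : ℝ) ^ 2 := one_le_pow₀ hi
  rcases le_or_gt (8 * ((i0 : ℝ) + 100) + 16) Y with hY | hY
  · obtain ⟨A, hA⟩ : ∃ A : Finset ℕ, A = (range (X + 1)).filter (fun n : ℕ => ∃ j : ℕ,
        (s : ℤ) * n = 2 ^ j * w ∧ (1 ≤ j → Y ≤ 2 * ((s * w : ℤ) : ℝ))) := ⟨_, rfl⟩
    obtain ⟨B, hB⟩ : ∃ B : Finset ℕ, B = (range (X + 1)).filter (fun n : ℕ => ∃ K,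
        Dat s (i0 + 100) Y w n K) := ⟨_, rfl⟩
    have hsub : (range (X + 1)).filter (fun n : ℕ => ∃ j, Hit s i0 Y w j (s * n)) ⊆ A ∪ B := by
      intro n hn
      obtain ⟨h1, j, h2⟩ := mem_filter.1 hn
      rw [mem_union, hA, hB, mem_filter, mem_filter]
      rcases hit_dat hs hY1 hY hw h2 with h3 | h3
      · exact Or.inl ⟨h1, j, h3⟩
      · exact Or.inr ⟨h1, h3⟩
    have hAc := pow_card hs hY1 hYX A (fun n hn => by
      rw [hA] at hn
      obtain ⟨h1, h2⟩ := mem_filter.1 hn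
      exact ⟨by have := mem_range.1 h1; omega, h2⟩)
    have hBc := dat_card hC H hs hY0 (X := X) (w := w) (I := i0 + 100) B (fun n hn => by
      rw [hB] at hn
      obtain ⟨h1, h2⟩ := mem_filter.1 hn
      exact ⟨by have := mem_range.1 h1; omega, h2⟩)
    have hc := (card_le_card hsub).trans (card_union_le _ _)
    have hc' : (((range (X + 1)).filter (fun n : ℕ => ∃ j, Hit s i0 Y w j (s * n))).card : ℝ) ≤
        A.card + B.card := by exact_mod_cast hc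
    push_cast at hBc
    have e1 : ((i0 : ℝ) + 100 + 1) ^ 2 ≤ 10404 * (i0 : ℝ) ^ 2 := by
      have : (i0 : ℝ) + 100 + 1 ≤ 102 * i0 := by linarith
      calc ((i0 : ℝ) + 100 + 1) ^ 2 ≤ (102 * i0) ^ 2 := pow_le_pow_left₀ (by positivity) this 2
        _ = 10404 * (i0 : ℝ) ^ 2 := by ring
    have e2 : 384 * C * ((i0 : ℝ) + 100 + 1) ^ 2 * ((X + 1) / Y) ≤
        384 * C * (10404 * (i0 : ℝ) ^ 2) * ((X + 1) / Y) := by
      apply mul_le_mul_of_nonneg_right _ hXY.le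
      exact mul_le_mul_of_nonneg_left e1 (by positivity)
    have e3 : 3 * (((X : ℝ) + 1) / Y) ≤ 827 * (i0 : ℝ) ^ 2 * ((X + 1) / Y) := by
      apply mul_le_mul_of_nonneg_right _ hXY.le
      linarith
    have e4 : (384 * C * 10404 + 827) * (i0 : ℝ) ^ 2 * ((X + 1) / Y) =
        384 * C * (10404 * (i0 : ℝ) ^ 2) * ((X + 1) / Y) + 827 * (i0 : ℝ) ^ 2 * ((X + 1) / Y) := by ring
    rw [e4]
    linarith
  · have h1 : (((range (X + 1)).filter (fun n : ℕ => ∃ j, Hit s i0 Y w j (s * n))).card : ℝ) ≤ X + 1 := by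
      have := card_filter_le (range (X + 1)) (fun n : ℕ => ∃ j, Hit s i0 Y w j (s * n))
      rw [card_range] at this
      exact_mod_cast this
    have h2 : (X : ℝ) + 1 = Y * ((X + 1) / Y) := by
      field_simp
    have h3 : Y ≤ 824 * (i0 : ℝ) ^ 2 := by nlinarith
    have h4 : (X : ℝ) + 1 ≤ 824 * (i0 : ℝ) ^ 2 * ((X + 1) / Y) := by
      rw [h2]
      have : Y * (Y * ((X + 1) / Y) / Y) = Y * ((X + 1) / Y) := by
        field_simp
      rw [show Y * ((X + 1) / Y) / Y = (X + 1) / Y by field_simp]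
      exact mul_le_mul_of_nonneg_right h3 hXY.le
    have h5 : 824 * (i0 : ℝ) ^ 2 * ((X + 1) / Y) ≤ (384 * C * 10404 + 827) * (i0 : ℝ) ^ 2 * ((X + 1) / Y) := by
      apply mul_le_mul_of_nonneg_right _ hXY.le
      apply mul_le_mul_of_nonneg_right _ (by positivity)
      have : 0 ≤ 384 * C * 10404 := by positivity
      linarith
    linarith

end Pool.Agent.helper4.PB
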