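import Pool.Agent.helper4.PB.Defs
import Pool.Agent.helper24.T2.Geo

/-!
# PB-Geo: sizes along a record word, both signs

`uu v t = 3 ^ t / 2 ^ (sum of the first t letters)`.  `T2b_Geo_rep`: `3 nd x v + 2 = (3 x + 2 - S) / uu`, `0 ≤ S ≤ B`,
`B = (2/3) ∑ uu`.
-/

namespace Pool.Agent.helper4.PB

open Finset Pool.Agent.helper14.EX1 Pool.Agent.helper4.BAS Pool.Agent.helper24.T2

noncomputable def uu (v : List ℕ) (t : ℕ) : ℝ := 3 ^ t / 2 ^ (v.take t).sum

theorem uu_pos (v : List ℕ) (t : ℕ) : 0 < uu v t := by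
  unfold uu
  positivity

theorem B_eq (v : List ℕ) : T2b_Geo_B v = ∑ j ∈ range v.length, 2 / 3 * uu v (j + 1) := by
  unfold T2b_Geo_B uu
  refine sum_congr rfl fun j _ => ?_
  rw [pow_succ]
  field_simp

theorem B_take (v : List ℕ) {t : ℕ} (ht : t ≤ v.length) :
    T2b_Geo_B (v.take t) = ∑ j ∈ range t, 2 / 3 * uu v (j + 1) := by
  rw [B_eq]
  rw [List.length_take, min_eq_left ht]
  refine sum_congr rfl fun j hj => ?_
  have hj' : j + 1 ≤ t := mem_range.1 hj
  unfold uu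
  rw [List.take_take, min_eq_left hj']

theorem ala_take {x : ℤ} {v : List ℕ} (h : Ala x v) (i : ℕ) : Ala x (v.take i) := by
  have h1 := (ala_append x (v.take i) (v.drop i)).mp (by rwa [List.take_append_drop])
  exact h1.1

theorem uu_typ {v : List ℕ} {i : ℕ} (h : 39 * i ≤ 20 * (v.take i).sum) : uu v i ≤ (4 / 5) ^ i := by
  unfold uu
  rw [div_le_iff₀ (by positivity)]
  have h1 : (15 / 4 : ℝ) ^ i ≤ 2 ^ (v.take i).sum := by
    have h2 : ((15 / 4 : ℝ) ^ i) ^ 20 ≤ ((2 : ℝ) ^ (v.take i).sum) ^ 20 := by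
      calc ((15 / 4 : ℝ) ^ i) ^ 20 = ((15 / 4 : ℝ) ^ 20) ^ i := by
            rw [← pow_mul, ← pow_mul, mul_comm]
        _ ≤ ((2 : ℝ) ^ 39) ^ i := pow_le_pow_left₀ (by positivity) (by norm_num) i
        _ = 2 ^ (39 * i) := by rw [← pow_mul]
        _ ≤ 2 ^ ((v.take i).sum * 20) := pow_le_pow_right₀ (by norm_num) (by omega)
        _ = ((2 : ℝ) ^ (v.take i).sum) ^ 20 := by rw [pow_mul]
    exact (pow_le_pow_iff_left₀ (by positivity) (by positivity) (by norm_num)).mp h2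
  have h3 : (3 : ℝ) ^ i = (4 / 5) ^ i * (15 / 4) ^ i := by
    rw [← mul_pow]
    norm_num
  rw [h3]
  exact mul_le_mul_of_nonneg_left h1 (by positivity)

theorem rep {s : ℤ} {x : ℤ} {v : List ℕ} (hv : ∀ k ∈ v, 1 ≤ k) (hA : Ala x v) {t : ℕ}
    (ht : t ≤ v.length) : ∃ S : ℝ, 0 ≤ S ∧ S ≤ ∑ j ∈ range t, 2 / 3 * uu v (j + 1) ∧
      (nv s (nd x (v.take t)) : ℝ) * uu v t = (nv s x : ℝ) - s * S := by
  obtain ⟨S, h1, h2, h3⟩ := T2b_Geo_rep (fun k hk => hv k (List.mem_of_mem_take hk)) (ala_take hA t)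
  rw [B_take v ht] at h2
  refine ⟨S, h1, h2, ?_⟩
  unfold nv
  push_cast
  rw [h3]
  unfold uu
  rw [List.length_take, min_eq_left ht]
  have e1 : (0 : ℝ) < 3 ^ t := by positivity
  have e2 : (0 : ℝ) < 2 ^ (v.take t).sum := by positivity
  field_simp

theorem uu_le {s : ℤ} (hs : s = 1 ∨ s = -1) {i0 : ℕ} {Y : ℝ} (hY : 8 * (i0 : ℝ) + 16 ≤ Y) {x : ℤ}
    {v : List ℕ} (hv : ∀ k ∈ v, 1 ≤ k) (hA : Ala x v) (hc2 : (nv s x : ℝ) ≤ 2 * Y)
    (hn : ∀ t, 1 ≤ t → t ≤ v.length → Y ≤ (nv s (nd x (v.take t)) : ℝ))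
    (ht : ∀ i, i0 ≤ i → i ≤ v.length → 39 * i ≤ 20 * (v.take i).sum) :
    ∀ t, t ≤ v.length → uu v t ≤ 3 := by
  have hi0 : (0 : ℝ) ≤ i0 := Nat.cast_nonneg i0
  intro t
  induction t using Nat.strong_induction_on with
  | _ t ih =>
    intro htl
    rcases le_or_gt i0 t with h1 | h1
    · refine (uu_typ (ht t h1 htl)).trans ?_
      have : (4 / 5 : ℝ) ^ t ≤ 1 := pow_le_one₀ (by norm_num) (by norm_num)
      linarith
    · rcases Nat.eq_zero_or_pos t with h0 | h0
      · subst h0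
        unfold uu
        simp
      · obtain ⟨S, hS0, hS1, hS⟩ := rep (s := s) hv hA htl
        have hu := uu_pos v t
        have h2 := hn t h0 htl
        have h3 : Y * uu v t ≤ (nv s (nd x (v.take t)) : ℝ) * uu v t :=
          mul_le_mul_of_nonneg_right h2 hu.le
        rw [hS] at h3
        rcases hs with rfl | rfl
        · push_cast at h3
          nlinarith
        · push_cast at h3
          obtain ⟨t', rfl⟩ : ∃ t', t = t' + 1 := ⟨t - 1, by omega⟩
          rw [sum_range_succ] at hS1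
          have h4 : ∑ j ∈ range t', 2 / 3 * uu v (j + 1) ≤ 2 * t' := by
            have h5 : ∀ j ∈ range t', 2 / 3 * uu v (j + 1) ≤ (2 : ℝ) := by
              intro j hj
              have hj' : j < t' := mem_range.1 hj
              have := ih (j + 1) (by omega) (by omega)
              linarith
            refine (sum_le_card_nsmul _ _ _ h5).trans ?_
            rw [card_range, nsmul_eq_mul]
            linarith
          have h6 : (t' : ℝ) ≤ i0 := by
            have : t' ≤ i0 := by omega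
            exact_mod_cast this
          have h7 : uu v (t' + 1) * (Y - 1) ≤ 3 * (Y - 1) := by nlinarith
          exact le_of_mul_le_mul_right h7 (by linarith)

theorem geom (n : ℕ) : ∑ j ∈ range n, (4 / 5 : ℝ) ^ (j + 1) ≤ 4 := by
  have h : ∑ j ∈ range n, (4 / 5 : ℝ) ^ (j + 1) = 4 * (1 - (4 / 5) ^ n) := by
    induction n with
    | zero => simp
    | succ n ih =>
      rw [sum_range_succ, ih, pow_succ (4 / 5 : ℝ) n]
      ring
  rw [h]
  have : (0 : ℝ) ≤ (4 / 5) ^ n := by positivity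
  linarith

theorem B_le {i0 : ℕ} {v : List ℕ} (hu : ∀ t, t ≤ v.length → uu v t ≤ 3)
    (ht : ∀ i, i0 ≤ i → i ≤ v.length → 39 * i ≤ 20 * (v.take i).sum) :
    ∑ j ∈ range v.length, 2 / 3 * uu v (j + 1) ≤ 2 * i0 + 4 := by
  have h1 : ∀ j ∈ range v.length, 2 / 3 * uu v (j + 1) ≤
      (if j < i0 then (2 : ℝ) else 0) + (4 / 5) ^ (j + 1) := by
    intro j hj
    have hj' : j + 1 ≤ v.length := mem_range.1 hj
    have hp : (0 : ℝ) ≤ (4 / 5) ^ (j + 1) := by positivity
    by_cases h : j < i0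
    · rw [if_pos h]
      have := hu (j + 1) hj'
      linarith
    · rw [if_neg h]
      have := uu_typ (ht (j + 1) (by omega) hj')
      linarith
  refine (sum_le_sum h1).trans ?_
  rw [sum_add_distrib]
  have h2 := geom v.length
  have h3 : ∑ j ∈ range v.length, (if j < i0 then (2 : ℝ) else 0) ≤ 2 * i0 := by
    rw [← sum_filter]
    have h4 : (range v.length).filter (fun j => j < i0) ⊆ range i0 := by
      intro j hj
      exact mem_range.2 (mem_filter.1 hj).2
    calc ∑ j ∈ (range v.length).filter (fun j => j < i0), (2 : ℝ) ≤ ∑ j ∈ range i0, (2 : ℝ) :=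
          sum_le_sum_of_subset_of_nonneg h4 (fun _ _ _ => by norm_num)
      _ = 2 * i0 := by rw [sum_const, card_range, nsmul_eq_mul]; ring
  linarith

/-- **Sizes.** -/
theorem geo {s : ℤ} (hs : s = 1 ∨ s = -1) {i0 : ℕ} {Y : ℝ} (hY : 8 * (i0 : ℝ) + 16 ≤ Y) {x : ℤ}
    {v : List ℕ} (hv : ∀ k ∈ v, 1 ≤ k) (hA : Ala x v) (hc1 : Y / 2 ≤ (nv s x : ℝ))
    (hc2 : (nv s x : ℝ) ≤ 2 * Y)
    (hn : ∀ t, 1 ≤ t → t ≤ v.length → Y ≤ (nv s (nd x (v.take t)) : ℝ))
    (ht : ∀ i, i0 ≤ i → i ≤ v.length → 39 * i ≤ 20 * (v.take i).sum) :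
    (∀ t, t ≤ v.length → (3 : ℝ) ^ t ≤ 3 * 2 ^ (v.take t).sum) ∧
      Y * 2 ^ v.sum ≤ 4 * (nv s (nd x v) : ℝ) * 3 ^ v.length := by
  have hu := uu_le hs hY hv hA hc2 hn ht
  have hi0 : (0 : ℝ) ≤ i0 := Nat.cast_nonneg i0
  constructor
  · intro t htl
    have h := hu t htl
    unfold uu at h
    rwa [div_le_iff₀ (by positivity)] at h
  · obtain ⟨S, hS0, hS1, hS⟩ := rep (s := s) hv hA (le_refl v.length)
    have hB := B_le hu ht
    rw [List.take_length] at hS
    have e : uu v v.length = 3 ^ v.length / 2 ^ v.sum := by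
      unfold uu
      rw [List.take_length]
    rw [e] at hS
    have hp2 : (0 : ℝ) < 2 ^ v.sum := by positivity
    have h1 : Y / 4 ≤ (nv s x : ℝ) - s * S := by
      rcases hs with rfl | rfl
      · push_cast
        linarith
      · push_cast
        linarith
    rw [← hS, mul_div_assoc', le_div_iff₀ hp2] at h1
    linarith

end Pool.Agent.helper4.PB
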