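import Pool.Agent.helper4.PB.Path
import Pool.Agent.helper4.PB.Geo
import Pool.Agent.helper82.RL.Main

/-!
# PB-Dat: the word of a path
-/

namespace Pool.Agent.helper4.PB

open Finset Pool.Agent.helper14.EX1 Pool.Agent.helper4.BAS Pool.Agent.helper82.RL

/-- The root of the paths which end at `w`. -/
def rt (w : ℤ) : ℤ := if w % 3 = 2 then (w - 2) / 3 else (2 * w - 2) / 3

theorem rt_eq {w x : ℤ} (h : 3 * x + 2 = w ∨ 3 * x + 2 = 2 * w) : rt w = x := by
  unfold rt
  rcases h with h | h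
  · rw [if_pos (by omega)]
    omega
  · rw [if_neg (by omega)]
    omega

/-- `n` is the end of the good word `v` from the root `rt w`, followed by `2 q` and `i` doublings. -/
def Dat (s : ℤ) (I : ℕ) (Y : ℝ) (w : ℤ) (n K : ℕ) : Prop :=
  ∃ (i q : ℕ) (m : ℤ) (v : List ℕ), s * n = 2 ^ i * m ∧ 3 * m + 1 = 2 * (4 ^ q * (3 * nd (rt w) v + 2)) ∧
    (∀ k ∈ v, 1 ≤ k) ∧ Gdw I v ∧ Nlo 3 v ∧ Ala (rt w) v ∧
    Y * 2 ^ v.sum ≤ 4 * (nv s (nd (rt w) v) : ℝ) * 3 ^ v.length ∧
    4 ^ q * 2 ^ i * nv s (nd (rt w) v) ≤ 2 * n ∧ 1 ≤ nv s (nd (rt w) v) ∧ 0 < n ∧ i < n ∧ v.sum ≤ K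

theorem drop_word {x : ℤ} {v : List ℕ} (hv : ∀ k ∈ v, 1 ≤ k) (hA : Ala x v) (t : ℕ) :
    T^[(v.drop t).sum] (3 * nd x v + 2) = 3 * nd x (v.take t) + 2 := by
  have h1 := (ala_append x (v.take t) (v.drop t)).mp (by rwa [List.take_append_drop])
  have h2 := T_word (fun k hk => hv k (List.mem_of_mem_drop hk)) h1.2
  have h3 : nd x v = nd (nd x (v.take t)) (v.drop t) := by
    rw [← nd_append, List.take_append_drop]
  rw [h3]
  exact h2

theorem take_drop_sum (v : List ℕ) (t : ℕ) : (v.take t).sum + (v.drop t).sum = v.sum := by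
  rw [← List.sum_append, List.take_append_drop]

theorem take_sum_ge {v : List ℕ} (hv : ∀ k ∈ v, 1 ≤ k) {t : ℕ} (ht : t ≤ v.length) :
    t ≤ (v.take t).sum := by
  have := List.length_le_sum_of_one_le (v.take t) (fun k hk => hv k (List.mem_of_mem_take hk))
  rwa [List.length_take, min_eq_left ht] at this

theorem last_step {s : ℤ} (hs : s = 1 ∨ s = -1) {Y : ℝ} (hY : 1 ≤ Y) {u w : ℤ} (h : T u = w)
    (hu : Y ≤ ((s * u : ℤ) : ℝ)) : Y ≤ 2 * ((s * w : ℤ) : ℝ) := by
  have h1 : (1 : ℤ) ≤ s * u := by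
    have : (1 : ℝ) ≤ ((s * u : ℤ) : ℝ) := hY.trans hu
    exact_mod_cast this
  have h2 : s * u ≤ 2 * (s * w) := by
    rcases Int.emod_two_eq_zero_or_one u with h3 | h3
    · have := T_even_eq h3
      rw [h] at this
      rcases hs with rfl | rfl <;> omega
    · have := T_odd_eq h3
      rw [h] at this
      rcases hs with rfl | rfl <;> omega
  have h3 : ((s * u : ℤ) : ℝ) ≤ ((2 * (s * w) : ℤ) : ℝ) := by exact_mod_cast h2
  push_cast at h3 hu ⊢
  linarith

theorem hit_dat {s : ℤ} (hs : s = 1 ∨ s = -1) {i0 : ℕ} {Y : ℝ} (hY1 : 1 ≤ Y)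
    (hY : 8 * ((i0 : ℝ) + 100) + 16 ≤ Y) {w : ℤ} (hw : ((s * w : ℤ) : ℝ) ≤ Y) {j n : ℕ}
    (h : Hit s i0 Y w j (s * n)) :
    (s * n = 2 ^ j * w ∧ (1 ≤ j → Y ≤ 2 * ((s * w : ℤ) : ℝ))) ∨ ∃ K, Dat s (i0 + 100) Y w n K := by
  obtain ⟨h1, h2, h3⟩ := h
  have hlast : 1 ≤ j → Y ≤ 2 * ((s * w : ℤ) : ℝ) := by
    intro hj
    refine last_step hs hY1 (u := T^[j - 1] (s * n)) ?_ (h2 (j - 1) (by omega))
    rw [← Function.iterate_succ_apply' T (j - 1) (s * n)]
    rw [← h1]
    congr 2
    omega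
  rcases path_all j (s * n) w h1 with hp | ⟨i, q, m, x, v, δ, e1, e2, hv, hA, e5, hδ, hj⟩
  · exact Or.inl ⟨hp, hlast⟩
  · right
    have hx : rt w = x := rt_eq (by rcases hδ with ⟨_, h⟩ | ⟨_, h⟩ <;> simp [h])
    have hδ1 : δ ≤ 1 := by rcases hδ with ⟨h, _⟩ | ⟨h, _⟩ <;> omega
    have hw2 := hlast (by omega)
    have hw1 : (1 : ℤ) ≤ s * w := by
      have h5 : (0 : ℝ) < ((s * w : ℤ) : ℝ) := by linarith
      have h6 : (0 : ℤ) < s * w := by exact_mod_cast h5
      omega
    -- positions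
    have hpos : ∀ t, t ≤ v.length → T^[i + 1 + 2 * q + (v.drop t).sum] (s * n) =
        3 * nd x (v.take t) + 2 := by
      intro t _
      have a1 : T^[i] (s * n) = m := by rw [e1, T_two_pow]
      have a2 : T m = 4 ^ q * (3 * nd x v + 2) := Tit_odd e5
      have a3 : T^[2 * q] (4 ^ q * (3 * nd x v + 2)) = 3 * nd x v + 2 := by
        have : (4 : ℤ) ^ q = 2 ^ (2 * q) := by rw [pow_mul]; norm_num
        rw [this, T_two_pow]
      have e : i + 1 + 2 * q + (v.drop t).sum = (v.drop t).sum + (2 * q + (1 + i)) := by ring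
      rw [e, Function.iterate_add_apply, Function.iterate_add_apply, Function.iterate_add_apply, a1]
      show T^[(v.drop t).sum] (T^[2 * q] (T m)) = _
      rw [a2, a3, drop_word hv hA]
    have hn : ∀ t, 1 ≤ t → t ≤ v.length → Y ≤ (nv s (nd x (v.take t)) : ℝ) := by
      intro t ht1 ht2
      have b1 := take_drop_sum v t
      have b2 := take_sum_ge hv ht2
      have b3 := h2 (i + 1 + 2 * q + (v.drop t).sum) (by omega)
      rw [hpos t ht2] at b3
      exact b3
    have hG : Gdw (i0 + 100) v := by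
      intro t ht1 ht2
      have b1 := take_drop_sum v t
      have b2 := take_sum_ge hv ht2
      have b3 := h3 ((v.take t).sum + δ) (by omega) (by omega)
      have b4 : j - ((v.take t).sum + δ) = i + 1 + 2 * q + (v.drop t).sum := by omega
      rw [b4, hpos t ht2, odZ_add, odZ_word (fun k hk => hv k (List.mem_of_mem_take hk)) (ala_take hA t),
        T_word (fun k hk => hv k (List.mem_of_mem_take hk)) (ala_take hA t), List.length_take,
        min_eq_left ht2] at b3
      have b5 : odZ δ (3 * x + 2) = 0 := by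
        rcases hδ with ⟨h5, _⟩ | ⟨h5, h6⟩
        · rw [h5]; rfl
        · rw [h5]
          show (if (3 * x + 2) % 2 = 0 then 0 else 1) + 0 = 0
          rw [if_pos (by omega)]
      rw [b5] at b3
      omega
    have hc1 : Y / 2 ≤ (nv s x : ℝ) := by
      have h5 : s * w ≤ nv s x := by
        unfold nv
        rcases hδ with ⟨_, h6⟩ | ⟨_, h6⟩
        · rw [h6]
        · rw [h6]
          rcases hs with rfl | rfl <;> omega
      have h6 : ((s * w : ℤ) : ℝ) ≤ (nv s x : ℝ) := by exact_mod_cast h5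
      linarith
    have hc2 : (nv s x : ℝ) ≤ 2 * Y := by
      have h5 : nv s x ≤ 2 * (s * w) := by
        unfold nv
        rcases hδ with ⟨_, h6⟩ | ⟨_, h6⟩
        · rw [h6]
          omega
        · rw [h6]
          rcases hs with rfl | rfl <;> omega
      have h6 : (nv s x : ℝ) ≤ ((2 * (s * w) : ℤ) : ℝ) := by exact_mod_cast h5
      push_cast at h6 hw ⊢
      linarith
    obtain ⟨g1, g2⟩ := geo hs (i0 := i0 + 100) (by push_cast; linarith) hv hA hc1 hc2 hn
      (fun t ht1 ht2 => (hG t ht1 ht2).1)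
    have hb1 : 1 ≤ nv s (nd x v) := by
      rcases Nat.eq_zero_or_pos v.length with h0 | h0
      · have h5 : v = [] := List.length_eq_zero_iff.1 h0
        rw [h5]
        show 1 ≤ nv s x
        have h6 : (0 : ℝ) < (nv s x : ℝ) := by linarith
        have h7 : (0 : ℤ) < nv s x := by exact_mod_cast h6
        omega
      · have h5 := hn v.length h0 le_rfl
        rw [List.take_length] at h5
        have h6 : (0 : ℝ) < (nv s (nd x v) : ℝ) := by linarith
        have h7 : (0 : ℤ) < nv s (nd x v) := by exact_mod_cast h6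
        omega
    have hp2 : (1 : ℤ) ≤ 2 ^ i := one_le_pow₀ (by norm_num)
    have hn1 : (n : ℤ) = 2 ^ i * (s * m) := by
      have : s * (s * n) = s * (2 ^ i * m) := by rw [e1]
      rcases hs with rfl | rfl <;> linarith
    have hsm : 1 ≤ s * m := by
      have h5 : 0 ≤ s * m := by
        by_contra hneg
        push Not at hneg
        have h6 : (0 : ℤ) ≤ n := Int.natCast_nonneg n
        nlinarith
      rcases hs with rfl | rfl <;> omega
    have hle : 4 ^ q * nv s (nd x v) ≤ 2 * (s * m) := by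
      have h5 : 4 ^ q * nv s (nd x v) = s * (4 ^ q * (3 * nd x v + 2)) := by
        unfold nv
        ring
      rw [h5]
      rcases hs with rfl | rfl <;> omega
    have hin : i < n := by
      have h5 : (i : ℤ) < 2 ^ i := by exact_mod_cast Nat.lt_two_pow_self
      have h6 : (i : ℤ) < n := by
        rw [hn1]
        nlinarith
      exact_mod_cast h6
    refine ⟨v.sum, i, q, m, v, e1, ?_, hv, hG, ?_, ?_, ?_, ?_, ?_, by omega, hin, le_rfl⟩
    · rw [hx]; exact e5
    · intro t ht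
      exact g1 t ht
    · rw [hx]; exact hA
    · rw [hx]; exact g2
    · rw [hx]
      calc 4 ^ q * 2 ^ i * nv s (nd x v) = 2 ^ i * (4 ^ q * nv s (nd x v)) := by ring
        _ ≤ 2 ^ i * (2 * (s * m)) := mul_le_mul_of_nonneg_left hle (by omega)
        _ = 2 * n := by rw [hn1]; ring
    · rw [hx]; exact hb1

end Pool.Agent.helper4.PB
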