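import Pool.Agent.helper4.BAS.Defs
import Pool.Agent.helper49.PDR.Defs

/-!
# PB: the pointwise bound without a loss in `x` (theorem V, MP_08f931 and MP_5bd76e): definitions

An integer `x` stands for the node `3 x + 2` (both signs).  `s = 1` or `s = -1` is the sign.  `T` is the map on the integers.
-/

namespace Pool.Agent.helper4.PB

open Finset Pool.Agent.helper14.EX1 Pool.Agent.helper4.BAS

/-- The record words: the prefixes of length at least `i0` are typical, `3 ^ j / 2 ^ sum` is at most `M` for all prefixes. -/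
def RW (i0 : ℕ) (M : ℝ) (l : ℕ) (v : List ℕ) : Prop :=
  (∀ i, i0 ≤ i → i ≤ l → 39 * i ≤ 20 * (v.take i).sum ∧ 20 * (v.take i).sum ≤ 41 * i) ∧
    (∀ j, j ≤ l → (3 : ℝ) ^ j ≤ M * 2 ^ (v.take j).sum)

open Classical in
/-- The record lemma of helper82. -/
def RLst : Prop := ∃ C : ℝ, 0 < C ∧ ∀ (i0 K r : ℕ) (M X : ℝ) (x : ℤ), 1 ≤ M → 0 < X →
  ∑ l ∈ range (r + 1), ∑ v ∈ lw K l,
    (if (∀ i, i0 ≤ i → i ≤ l → 39 * i ≤ 20 * (v.take i).sum ∧ 20 * (v.take i).sum ≤ 41 * i) ∧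
        (∀ j, j ≤ l → (3 : ℝ) ^ j ≤ M * 2 ^ (v.take j).sum) ∧ Ala x v ∧
        Pool.Agent.helper49.PDR.strip X l v.sum then ww v else 0) ≤ C * M * (i0 + 1) ^ 2

/-- The number of odd terms among the first `k` iterates. -/
def odZ : ℕ → ℤ → ℕ
  | 0, _ => 0
  | k + 1, n => (if n % 2 = 0 then 0 else 1) + odZ k (T n)

/-- The last `i` steps before the step `j` are typical, for all `i ≥ i0`. -/
def TypB (i0 j : ℕ) (n : ℤ) : Prop :=
  ∀ i, i0 ≤ i → i ≤ j → 49 * i ≤ 100 * odZ i (T^[j - i] n) ∧ 100 * odZ i (T^[j - i] n) ≤ 51 * i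

/-- `w` is reached after `j` steps, the earlier terms are at least `Y` in absolute value, and the last steps are typical. -/
def Hit (s : ℤ) (i0 : ℕ) (Y : ℝ) (w : ℤ) (j : ℕ) (n : ℤ) : Prop :=
  T^[j] n = w ∧ (∀ i, i < j → Y ≤ ((s * T^[i] n : ℤ) : ℝ)) ∧ TypB i0 j n

end Pool.Agent.helper4.PB
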