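import Pool.Agent.helper4.PB.Fin
import Pool.Agent.helper49.Pow.Word

/-!
# PB-Nat: the pointwise bound for the map on the natural numbers
-/

namespace Pool.Agent.helper4.PB

open Finset Pool.Agent.helper49.Pow

theorem T_cast (n : ℕ) : Pool.Agent.helper4.BAS.T (n : ℤ) = ((T n : ℕ) : ℤ) := by
  unfold Pool.Agent.helper4.BAS.T T
  split_ifs <;> omega

theorem iter_cast (i n : ℕ) : Pool.Agent.helper4.BAS.T^[i] (n : ℤ) = ((T^[i] n : ℕ) : ℤ) := by
  induction i generalizing n with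
  | zero => rfl
  | succ i ih => rw [Function.iterate_succ_apply, Function.iterate_succ_apply, T_cast, ih]

theorem od_cast (i n : ℕ) : odZ i (n : ℤ) = od i n := by
  induction i generalizing n with
  | zero => rfl
  | succ i ih =>
    show (if (n : ℤ) % 2 = 0 then 0 else 1) + odZ i (Pool.Agent.helper4.BAS.T (n : ℤ)) =
      n % 2 + od i (T n)
    rw [T_cast, ih]
    congr 1
    split_ifs <;> omega

open Classical in
/-- **The pointwise bound for the natural numbers.** -/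
theorem pb : ∃ C : ℝ, 0 < C ∧ ∀ (X z i0 : ℕ) (Y : ℝ), 1 ≤ i0 → 1 ≤ Y → Y ≤ X + 1 → (z : ℝ) ≤ Y →
    (((range (X + 1)).filter (fun n : ℕ => ∃ j, T^[j] n = z ∧
      (∀ i, i < j → Y ≤ ((T^[i] n : ℕ) : ℝ)) ∧
      (∀ i, i0 ≤ i → i ≤ j → 49 * i ≤ 100 * od i (T^[j - i] n) ∧
        100 * od i (T^[j - i] n) ≤ 51 * i))).card : ℝ) ≤ C * i0 ^ 2 * (X + 1) / Y := by
  obtain ⟨C, hC, H⟩ := pbZ
  refine ⟨C, hC, fun X z i0 Y h1 h2 h3 h4 => ?_⟩
  have h5 := H 1 (Or.inl rfl) X i0 (z : ℤ) Y h1 h2 h3 (by simpa using h4)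
  rw [mul_div_assoc]
  refine le_trans ?_ h5
  have h6 : (range (X + 1)).filter (fun n : ℕ => ∃ j, T^[j] n = z ∧
      (∀ i, i < j → Y ≤ ((T^[i] n : ℕ) : ℝ)) ∧
      (∀ i, i0 ≤ i → i ≤ j → 49 * i ≤ 100 * od i (T^[j - i] n) ∧
        100 * od i (T^[j - i] n) ≤ 51 * i)) ⊆
      (range (X + 1)).filter (fun n : ℕ => ∃ j, Hit 1 i0 Y (z : ℤ) j (1 * (n : ℤ))) := by
    intro n hn
    obtain ⟨g1, j, g2, g3, g4⟩ := mem_filter.1 hn
    refine mem_filter.2 ⟨g1, j, ?_, ?_, ?_⟩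
    · rw [one_mul, iter_cast, g2]
    · intro i hi
      rw [one_mul, one_mul, iter_cast]
      have := g3 i hi
      push_cast at this ⊢
      exact this
    · intro i hi hij
      rw [one_mul, iter_cast, od_cast]
      exact g4 i hi hij
  exact_mod_cast card_le_card h6

end Pool.Agent.helper4.PB
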