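import Pool.Agent.helper4.PB.Defs
import Pool.Agent.helper4.BAS.Tit

/-!
# PB-Path: every path is a word

`path`: from an integer `t ≡ 2` modulo `3` down to `w`: `t = 4 ^ q (3 nd x v + 2)`, the root `3 x + 2` is `w` or `2 w`.
`path_all`: from any integer.
-/

namespace Pool.Agent.helper4.PB

open Finset Pool.Agent.helper14.EX1 Pool.Agent.helper4.BAS

theorem al_of {k : ℕ} (hk : 1 ≤ k) {x y : ℤ}
    (h : 3 * (3 * y + 2) = 2 ^ k * (3 * x + 2) - (if k % 2 = 1 then 1 else 2)) :
    Al k x ∧ Tk k x = y := by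
  have h1 := three_tk hk
  have h2 : 2 ^ k * x + tk k = 3 * y := by
    rw [pow_succ] at h1
    linarith
  have h3 : Al k x := ⟨y, h2⟩
  refine ⟨h3, ?_⟩
  have h4 := Tk_eq h3
  omega

theorem sum_snoc (v : List ℕ) (k : ℕ) : (v ++ [k]).sum = v.sum + k := by
  rw [List.sum_append]
  simp

theorem snoc {x : ℤ} {v : List ℕ} (hv : ∀ k ∈ v, 1 ≤ k) (hA : Ala x v) {k : ℕ} (hk : 1 ≤ k) {y : ℤ}
    (h : 3 * (3 * y + 2) = 2 ^ k * (3 * nd x v + 2) - (if k % 2 = 1 then 1 else 2)) :
    (∀ i ∈ v ++ [k], 1 ≤ i) ∧ Ala x (v ++ [k]) ∧ nd x (v ++ [k]) = y := by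
  obtain ⟨h1, h2⟩ := al_of hk h
  refine ⟨?_, ?_, ?_⟩
  · intro i hi
    rcases List.mem_append.1 hi with hi | hi
    · exact hv i hi
    · rw [List.mem_singleton.1 hi]; exact hk
  · rw [ala_append]
    exact ⟨hA, h1, trivial⟩
  · rw [nd_append]
    exact h2

theorem T_odd_eq {n : ℤ} (h : n % 2 = 1) : 2 * T n = 3 * n + 1 := by
  unfold T
  rw [if_neg (by omega)]
  omega

theorem T_even_eq {n : ℤ} (h : n % 2 = 0) : 2 * T n = n := by
  unfold T
  rw [if_pos h]
  omega

theorem path (j : ℕ) : ∀ t w : ℤ, t % 3 = 2 → T^[j] t = w →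
    ∃ (q : ℕ) (x : ℤ) (v : List ℕ) (δ : ℕ), (∀ k ∈ v, 1 ≤ k) ∧ Ala x v ∧ t = 4 ^ q * (3 * nd x v + 2) ∧
      ((δ = 0 ∧ 3 * x + 2 = w) ∨ (δ = 1 ∧ 3 * x + 2 = 2 * w)) ∧ j = 2 * q + v.sum + δ := by
  induction j using Nat.strong_induction_on with
  | _ j ih =>
    intro t w ht hw
    rcases Nat.eq_zero_or_pos j with hj | hj
    · subst hj
      refine ⟨0, (t - 2) / 3, [], 0, by simp, trivial, ?_, Or.inl ⟨rfl, ?_⟩, rfl⟩
      · rw [pow_zero, one_mul]
        show t = 3 * ((t - 2) / 3) + 2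
        omega
      · have : t = w := hw
        omega
    · rcases Int.emod_two_eq_zero_or_one t with h2 | h2
      · -- even
        have hT := T_even_eq h2
        rcases Nat.eq_or_lt_of_le hj with hj1 | hj1
        · -- one step
          have hj' : j = 1 := hj1.symm
          subst hj'
          have hw' : T t = w := hw
          refine ⟨0, (t - 2) / 3, [], 1, by simp, trivial, ?_, Or.inr ⟨rfl, ?_⟩, rfl⟩
          · rw [pow_zero, one_mul]
            show t = 3 * ((t - 2) / 3) + 2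
            omega
          · rw [hw'] at hT
            omega
        · obtain ⟨j', rfl⟩ : ∃ j', j = j' + 2 := ⟨j - 2, by omega⟩
          have hw' : T^[j'] (T (T t)) = w := by
            rw [Function.iterate_add_apply] at hw
            exact hw
          rcases Int.emod_two_eq_zero_or_one (T t) with h3 | h3
          · -- divisible by four
            have hT2 := T_even_eq h3
            obtain ⟨q, x, v, δ, hv, hA, e, hδ, hj'⟩ := ih j' (by omega) (T (T t)) w (by omega) hw'
            refine ⟨q + 1, x, v, δ, hv, hA, ?_, hδ, by omega⟩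
            rw [pow_succ]
            linarith
          · have hT2 := T_odd_eq h3
            obtain ⟨q, x, v, δ, hv, hA, e, hδ, hj'⟩ := ih j' (by omega) (T (T t)) w (by omega) hw'
            have hp : (2 : ℤ) ^ (2 + 2 * q) = 4 * 4 ^ q := by
              rw [pow_add, pow_mul]
              norm_num
            obtain ⟨g1, g2, g3⟩ := snoc hv hA (k := 2 + 2 * q) (by omega) (y := (t - 2) / 3) (by
              rw [if_neg (by omega), hp, mul_assoc, ← e]
              omega)
            refine ⟨0, x, v ++ [2 + 2 * q], δ, g1, g2, ?_, hδ, ?_⟩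
            · rw [g3, pow_zero, one_mul]
              omega
            · rw [sum_snoc]
              omega
      · -- odd
        have hT := T_odd_eq h2
        obtain ⟨j', rfl⟩ : ∃ j', j = j' + 1 := ⟨j - 1, by omega⟩
        have hw' : T^[j'] (T t) = w := by
          rw [Function.iterate_succ_apply] at hw
          exact hw
        obtain ⟨q, x, v, δ, hv, hA, e, hδ, hj'⟩ := ih j' (by omega) (T t) w (by omega) hw'
        have hp : (2 : ℤ) ^ (1 + 2 * q) = 2 * 4 ^ q := by
          rw [pow_add, pow_mul]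
          norm_num
        obtain ⟨g1, g2, g3⟩ := snoc hv hA (k := 1 + 2 * q) (by omega) (y := (t - 2) / 3) (by
          rw [if_pos (by omega), hp, mul_assoc, ← e]
          omega)
        refine ⟨0, x, v ++ [1 + 2 * q], δ, g1, g2, ?_, hδ, ?_⟩
        · rw [g3, pow_zero, one_mul]
          omega
        · rw [sum_snoc]
          omega

/-- All paths. -/
theorem path_all (j : ℕ) : ∀ n w : ℤ, T^[j] n = w →
    (n = 2 ^ j * w) ∨
    ∃ (i q : ℕ) (m x : ℤ) (v : List ℕ) (δ : ℕ), n = 2 ^ i * m ∧ m % 2 = 1 ∧ (∀ k ∈ v, 1 ≤ k) ∧ Ala x v ∧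
      3 * m + 1 = 2 * (4 ^ q * (3 * nd x v + 2)) ∧
      ((δ = 0 ∧ 3 * x + 2 = w) ∨ (δ = 1 ∧ 3 * x + 2 = 2 * w)) ∧ j = i + 1 + 2 * q + v.sum + δ := by
  induction j with
  | zero =>
    intro n w h
    left
    have : n = w := h
    rw [pow_zero, one_mul, this]
  | succ j ih =>
    intro n w h
    rw [Function.iterate_succ_apply] at h
    rcases Int.emod_two_eq_zero_or_one n with h2 | h2
    · have hT := T_even_eq h2
      rcases ih (T n) w h with h3 | ⟨i, q, m, x, v, δ, e1, e2, e3, e4, e5, e6, e7⟩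
      · left
        rw [pow_succ]
        linarith
      · right
        refine ⟨i + 1, q, m, x, v, δ, ?_, e2, e3, e4, e5, e6, by omega⟩
        rw [pow_succ]
        linarith
    · right
      have hT := T_odd_eq h2
      obtain ⟨q, x, v, δ, hv, hA, e, hδ, hj'⟩ := path j (T n) w (by omega) h
      refine ⟨0, q, n, x, v, δ, by rw [pow_zero, one_mul], h2, hv, hA, ?_, hδ, by omega⟩
      rw [← e]
      omega

/-- The odd terms along a word: one for each letter. -/
theorem odZ_add (a b : ℕ) (n : ℤ) : odZ (a + b) n = odZ a n + odZ b (T^[a] n) := by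
  induction a generalizing n with
  | zero => simp [odZ]
  | succ a ih =>
    rw [Nat.succ_add, Function.iterate_succ_apply]
    show (if n % 2 = 0 then 0 else 1) + odZ (a + b) (T n) =
      ((if n % 2 = 0 then 0 else 1) + odZ a (T n)) + odZ b (T^[a] (T n))
    rw [ih]
    omega

theorem odZ_pow (j : ℕ) (n : ℤ) : odZ j (2 ^ j * n) = 0 := by
  induction j with
  | zero => rfl
  | succ j ih =>
    have h1 : (2 : ℤ) ^ (j + 1) * n = 2 * (2 ^ j * n) := by ring
    show (if (2 ^ (j + 1) * n) % 2 = 0 then 0 else 1) + odZ j (T (2 ^ (j + 1) * n)) = 0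
    rw [h1, Tit_two, ih, if_pos (by omega)]

theorem odZ_letter {k : ℕ} {x : ℤ} (hk : 1 ≤ k) (h : Al k x) : odZ k (3 * Tk k x + 2) = 1 := by
  have h1 := Tk_node hk h
  rcases Nat.even_or_odd k with he | ho
  · obtain ⟨j, hj⟩ : ∃ j, k = j + 2 := by
      obtain ⟨i, hi⟩ := he
      exact ⟨k - 2, by omega⟩
    have hc : ¬ k % 2 = 1 := by
      have := Nat.even_iff.1 he
      omega
    rw [if_neg hc] at h1
    have h2 : (2 : ℤ) ^ k = 4 * 2 ^ j := by
      rw [hj, pow_add]
      ring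
    rw [h2] at h1
    obtain ⟨y, hy⟩ : ∃ y : ℤ, y = 2 ^ j * (3 * x + 2) := ⟨_, rfl⟩
    have h3 : 3 * (3 * Tk k x + 2) = 4 * y - 2 := by
      rw [h1, hy]
      ring
    obtain ⟨b, hb⟩ : ∃ b : ℤ, 3 * Tk k x + 2 = 2 * b := ⟨(3 * Tk k x + 2) / 2, by omega⟩
    have h4 : 3 * b + 1 = 2 * y := by omega
    rw [hb, hj]
    show (if (2 * b) % 2 = 0 then 0 else 1) +
      ((if T (2 * b) % 2 = 0 then 0 else 1) + odZ j (T (T (2 * b)))) = 1
    rw [Tit_two, Tit_odd h4, hy, odZ_pow, if_pos (by omega), if_neg (by omega)]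
  · obtain ⟨j, hj⟩ : ∃ j, k = j + 1 := ⟨k - 1, by omega⟩
    have hc : k % 2 = 1 := Nat.odd_iff.1 ho
    rw [if_pos hc] at h1
    have h2 : (2 : ℤ) ^ k = 2 * 2 ^ j := by
      rw [hj, pow_add]
      ring
    rw [h2] at h1
    obtain ⟨y, hy⟩ : ∃ y : ℤ, y = 2 ^ j * (3 * x + 2) := ⟨_, rfl⟩
    have h3 : 3 * (3 * Tk k x + 2) + 1 = 2 * y := by
      rw [h1, hy]
      ring
    have h4 := Tit_odd h3
    generalize 3 * Tk k x + 2 = b at h3 h4 ⊢
    rw [hj]
    show (if b % 2 = 0 then 0 else 1) + odZ j (T b) = 1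
    rw [h4, hy, odZ_pow, if_neg (by omega)]

theorem odZ_word {v : List ℕ} {x : ℤ} (hv : ∀ k ∈ v, 1 ≤ k) (h : Ala x v) :
    odZ v.sum (3 * nd x v + 2) = v.length := by
  induction v generalizing x with
  | nil => rfl
  | cons k v ih =>
    have h1 : Al k x := h.1
    have h2 : Ala (Tk k x) v := h.2
    have hv' : ∀ j ∈ v, 1 ≤ j := fun j hj => hv j (List.mem_cons_of_mem k hj)
    have h3 := ih hv' h2
    have h4 := T_word hv' h2
    rw [List.sum_cons, List.length_cons, add_comm k v.sum, odZ_add]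
    show odZ v.sum (3 * nd (Tk k x) v + 2) + odZ k (T^[v.sum] (3 * nd (Tk k x) v + 2)) = v.length + 1
    rw [h3, h4, odZ_letter (hv k List.mem_cons_self) h1]

end Pool.Agent.helper4.PB
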